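import Pool.Agent.Helper4.CI.Goals
import Pool.Agent.Helper33.Mono.BoxCount
import Pool.Agent.Helper91.Mono.Idx

/-!
# P1: exponential sums over the integer points of an open simplicial cone
-/

set_option autoImplicit false

namespace Mono.CI.P1

open Finset Filter Topology Mono Mono.CI Mono.H33

variable {n : ℕ}

/-! ### sums over products -/

theorem step_equiv (α β : Type) [Fintype α] [Fintype β] (e : α ≃ β)
    (ih : ∀ (g : α → ℕ → ℝ) (S : α → ℝ), (∀ i m, 0 ≤ g i m) → (∀ i, HasSum (g i) (S i)) →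
      HasSum (fun m : α → ℕ => ∏ i, g i (m i)) (∏ i, S i))
    (g : β → ℕ → ℝ) (S : β → ℝ) (hg : ∀ i m, 0 ≤ g i m) (hS : ∀ i, HasSum (g i) (S i)) :
      HasSum (fun m : β → ℕ => ∏ i, g i (m i)) (∏ i, S i) := by
  have h1 := ih (fun a => g (e a)) (fun a => S (e a)) (fun a m => hg _ _) (fun a => hS _)
  have h2 : ∏ i, S i = ∏ a, S (e a) := (Equiv.prod_comp e S).symm
  rw [h2]
  have h3 := (Equiv.arrowCongr e (Equiv.refl ℕ)).symm.hasSum_iff
    (f := fun m : α → ℕ => ∏ a, g (e a) (m a)) (a := ∏ a, S (e a))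
  have h4 := h3.mpr h1
  have h5 : (fun m : β → ℕ => ∏ i, g i (m i)) = (fun m : α → ℕ => ∏ a, g (e a) (m a)) ∘
      (Equiv.arrowCongr e (Equiv.refl ℕ)).symm := by
    funext m
    change ∏ i, g i (m i) = ∏ a, g (e a) (m (e a))
    exact (Equiv.prod_comp e (fun i => g i (m i))).symm
  rw [h5]
  exact h4

theorem step_option (α : Type) [Fintype α]
    (ih : ∀ (g : α → ℕ → ℝ) (S : α → ℝ), (∀ i m, 0 ≤ g i m) → (∀ i, HasSum (g i) (S i)) →
      HasSum (fun m : α → ℕ => ∏ i, g i (m i)) (∏ i, S i))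
    (g : Option α → ℕ → ℝ) (S : Option α → ℝ) (hg : ∀ i m, 0 ≤ g i m)
    (hS : ∀ i, HasSum (g i) (S i)) :
      HasSum (fun m : Option α → ℕ => ∏ i, g i (m i)) (∏ i, S i) := by
  have h1 := ih (fun a => g (some a)) (fun a => S (some a)) (fun a m => hg _ _) (fun a => hS _)
  have hsum : Summable fun x : ℕ × (α → ℕ) => g none x.1 * ∏ a, g (some a) (x.2 a) :=
    (hS none).summable.mul_of_nonneg h1.summable (fun m => hg none m)
      (fun m => Finset.prod_nonneg fun a _ => hg _ _)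
  have h2 := (hS none).mul h1 hsum
  rw [Fintype.prod_option]
  have h3 := (Equiv.piOptionEquivProd (β := fun _ : Option α => ℕ)).hasSum_iff
    (f := fun x : ℕ × (α → ℕ) => g none x.1 * ∏ a, g (some a) (x.2 a))
    (a := S none * ∏ a, S (some a))
  have h4 := h3.mpr h2
  have h5 : (fun m : Option α → ℕ => ∏ i, g i (m i)) =
      (fun x : ℕ × (α → ℕ) => g none x.1 * ∏ a, g (some a) (x.2 a)) ∘
      (Equiv.piOptionEquivProd (β := fun _ : Option α => ℕ)) := by
    funext m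
    change ∏ i, g i (m i) = g none (m none) * ∏ a, g (some a) (m (some a))
    rw [Fintype.prod_option]
  rw [h5]
  exact h4

theorem hasSum_pi_nat {ι : Type} [Fintype ι] (g : ι → ℕ → ℝ) (S : ι → ℝ)
    (hg : ∀ i m, 0 ≤ g i m) (hS : ∀ i, HasSum (g i) (S i)) :
    HasSum (fun m : ι → ℕ => ∏ i, g i (m i)) (∏ i, S i) := by
  have key : ∀ (k : ℕ) (g : Fin k → ℕ → ℝ) (S : Fin k → ℝ), (∀ i m, 0 ≤ g i m) →
      (∀ i, HasSum (g i) (S i)) → HasSum (fun m : Fin k → ℕ => ∏ i, g i (m i)) (∏ i, S i) := by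
    intro k
    induction k with
    | zero =>
      intro g S _ _
      simp only [Finset.univ_eq_empty, Finset.prod_empty]
      exact hasSum_unique (fun _ : Fin 0 → ℕ => (1 : ℝ))
    | succ k ih =>
      exact step_equiv (Option (Fin k)) (Fin (k + 1)) (finSuccEquiv k).symm
        (step_option (Fin k) ih)
  exact step_equiv (Fin (Fintype.card ι)) ι (Fintype.equivFin ι).symm (key _) g S hg hS

/-! ### the half-open box -/

/-- The half-open box `(0,1]^δ`. -/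
def FB (δ : Finset (Fin n → ℤ)) : Set (Fin n → ℤ) :=
  {b | ∃ c : (Fin n → ℤ) → ℝ, (∀ u ∈ δ, 0 < c u ∧ c u ≤ 1) ∧ toR b = ∑ u ∈ δ, c u • toR u}

theorem ceil_box (x : ℝ) : 0 < x - ((⌈x⌉ - 1 : ℤ) : ℝ) ∧ x - ((⌈x⌉ - 1 : ℤ) : ℝ) ≤ 1 := by
  have h1 := Int.ceil_lt_add_one x
  have h2 := Int.le_ceil x
  push_cast
  constructor <;> linarith

theorem card_FB {δ : Finset (Fin n → ℤ)} (hδ : Indep δ) :
    Nat.card (FB δ) = idx (δ : Set (Fin n → ℤ)) := by
  classical
  set N := AddSubgroup.closure (δ : Set (Fin n → ℤ)) with hN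
  set K := sat (δ : Set (Fin n → ℤ)) with hK
  change _ = (N.addSubgroupOf K).index
  rw [AddSubgroup.index]
  have hK' : ∀ b ∈ FB δ, b ∈ K := by
    rintro b ⟨c, _, h2⟩
    exact mem_sat_of_comb δ b c h2
  refine Nat.card_congr (Equiv.ofBijective
    (fun b : FB δ => (QuotientAddGroup.mk (⟨b.1, hK' b.1 b.2⟩ : K) :
      K ⧸ N.addSubgroupOf K)) ⟨?_, ?_⟩)
  · rintro ⟨b, hb⟩ ⟨b', hb'⟩ h
    have h' := QuotientAddGroup.eq.1 h
    rw [AddSubgroup.mem_addSubgroupOf] at h'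
    have h3 : -b + b' ∈ N := h'
    have h4 : b' - b ∈ N := by
      have : -b + b' = b' - b := by abel
      rwa [this] at h3
    obtain ⟨z, hz⟩ := closure_comb δ h4
    obtain ⟨c, hc, h2⟩ := hb
    obtain ⟨c', hc', h2'⟩ := hb'
    have h5 : ∑ u ∈ δ, c' u • toR u = ∑ u ∈ δ, (c u + z u) • toR u := by
      simp only [add_smul]
      rw [Finset.sum_add_distrib, ← h2, ← h2']
      have : ∑ u ∈ δ, (z u : ℝ) • toR u = toR (b' - b) := by
        rw [hz, toR_sum]
        exact Finset.sum_congr rfl fun u _ => (toR_smul _ _).symm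
      rw [this, toR_sub]
      abel
    have h6 := hδ.coeff_eq h5
    have h7 : ∀ u ∈ δ, z u = 0 := by
      intro u hu
      have e := h6 u hu
      have e1 := hc u hu
      have e2 := hc' u hu
      have e3 : (z u : ℝ) < 1 := by linarith
      have e4 : (-1 : ℝ) < (z u : ℝ) := by linarith
      have e5 : z u < 1 := by exact_mod_cast e3
      have e6 : -1 < z u := by exact_mod_cast e4
      omega
    have h8 : b' - b = 0 := by
      rw [hz]
      exact Finset.sum_eq_zero fun u hu => by rw [h7 u hu, zero_smul]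
    exact Subtype.ext (sub_eq_zero.1 h8).symm
  · intro y
    obtain ⟨⟨k, hk⟩, rfl⟩ := QuotientAddGroup.mk_surjective y
    obtain ⟨c, hc⟩ := sat_comb δ hk
    set m : Fin n → ℤ := ∑ u ∈ δ, (⌈c u⌉ - 1) • u with hm
    have hmN : m ∈ N := AddSubgroup.sum_mem _ fun u hu =>
      AddSubgroup.zsmul_mem _ (AddSubgroup.subset_closure (by exact_mod_cast hu)) _
    have hcomb : toR (k - m) = ∑ u ∈ δ, (c u - ((⌈c u⌉ - 1 : ℤ) : ℝ)) • toR u := by
      rw [toR_sub, hc, hm, toR_sum, ← Finset.sum_sub_distrib]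
      refine Finset.sum_congr rfl fun u _ => ?_
      rw [toR_smul, ← sub_smul]
    have hbox : k - m ∈ FB δ := ⟨_, fun u _ => ceil_box (c u), hcomb⟩
    refine ⟨⟨k - m, hbox⟩, ?_⟩
    apply QuotientAddGroup.eq.2
    rw [AddSubgroup.mem_addSubgroupOf]
    change -(k - m) + k ∈ N
    have : -(k - m) + k = m := by abel
    rw [this]
    exact hmN

/-- the coefficients of a point of the box -/
theorem exists_coef (δ : Finset (Fin n → ℤ)) : ∃ c : FB δ → (Fin n → ℤ) → ℝ,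
    ∀ b : FB δ, (∀ u ∈ δ, 0 < c b u ∧ c b u ≤ 1) ∧ toR b.1 = ∑ u ∈ δ, c b u • toR u := by
  have h : ∀ b : FB δ, ∃ c : (Fin n → ℤ) → ℝ, (∀ u ∈ δ, 0 < c u ∧ c u ≤ 1) ∧
      toR b.1 = ∑ u ∈ δ, c u • toR u := fun b => b.2
  choose c hc using h
  exact ⟨c, hc⟩

theorem toR_comb (δ : Finset (Fin n → ℤ)) (b : Fin n → ℤ) (c : (Fin n → ℤ) → ℝ)
    (hb : toR b = ∑ u ∈ δ, c u • toR u) (m : δ → ℕ) :
    toR (b + ∑ u : δ, (m u : ℤ) • (u : Fin n → ℤ)) =
      ∑ u ∈ δ, (c u + if h : u ∈ δ then (m ⟨u, h⟩ : ℝ) else 0) • toR u := by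
  classical
  rw [toR_add, hb, toR_sum]
  simp only [add_smul]
  rw [Finset.sum_add_distrib]
  congr 1
  rw [← Finset.sum_coe_sort δ]
  refine Finset.sum_congr rfl fun u _ => ?_
  rw [toR_smul]
  simp

/-- the decomposition of the open cone -/
noncomputable def decomp {δ : Finset (Fin n → ℤ)} (hδ : Indep δ) (c : FB δ → (Fin n → ℤ) → ℝ)
    (hc : ∀ b : FB δ, (∀ u ∈ δ, 0 < c b u ∧ c b u ≤ 1) ∧ toR b.1 = ∑ u ∈ δ, c b u • toR u) :
    FB δ × (δ → ℕ) ≃ opn δ :=
  Equiv.ofBijective (fun q => ⟨q.1.1 + ∑ u : δ, (q.2 u : ℤ) • (u : Fin n → ℤ),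
      fun u => c q.1 u + if h : u ∈ δ then (q.2 ⟨u, h⟩ : ℝ) else 0, by
        intro u hu
        have := ((hc q.1).1 u hu).1
        simp only [hu, dif_pos]
        positivity, toR_comb δ _ _ (hc q.1).2 q.2⟩) (by
    constructor
    · rintro ⟨b, m⟩ ⟨b', m'⟩ h
      have h1 : b.1 + ∑ u : δ, (m u : ℤ) • (u : Fin n → ℤ) =
        b'.1 + ∑ u : δ, (m' u : ℤ) • (u : Fin n → ℤ) := congrArg Subtype.val h
      have h2 := congrArg toR h1
      rw [toR_comb δ _ _ (hc b).2 m, toR_comb δ _ _ (hc b').2 m'] at h2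
      have h3 := hδ.coeff_eq h2
      have h4 : m = m' := by
        funext u
        have h5 := h3 u.1 u.2
        simp only [u.2, dif_pos] at h5
        have h6 := (hc b).1 u.1 u.2
        have h7 := (hc b').1 u.1 u.2
        have h8 : (m u : ℝ) < m' u + 1 := by linarith
        have h9 : (m' u : ℝ) < m u + 1 := by linarith
        have h8' : m u < m' u + 1 := by exact_mod_cast h8
        have h9' : m' u < m u + 1 := by exact_mod_cast h9
        omega
      subst h4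
      have h5 : b = b' := by
        apply Subtype.ext
        exact add_right_cancel h1
      subst h5
      rfl
    · rintro ⟨x, d, hd, hx⟩
      have hceil : ∀ u ∈ δ, ((⌈d u⌉₊ - 1 : ℕ) : ℝ) < d u ∧
          d u ≤ ((⌈d u⌉₊ - 1 : ℕ) : ℝ) + 1 := by
        intro u hu
        have h1 := hd u hu
        have h2 : 0 < ⌈d u⌉₊ := Nat.ceil_pos.2 h1
        have h3 : ((⌈d u⌉₊ - 1 : ℕ) : ℝ) = (⌈d u⌉₊ : ℝ) - 1 := by
          rw [Nat.cast_sub h2]; simp
        rw [h3]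
        have h4 := Nat.ceil_lt_add_one h1.le
        have h5 := Nat.le_ceil (d u)
        constructor <;> linarith
      set m : δ → ℕ := fun u => ⌈d u⌉₊ - 1 with hm
      set y : Fin n → ℤ := x - ∑ u : δ, (m u : ℤ) • (u : Fin n → ℤ) with hy
      have hyc : toR y = ∑ u ∈ δ, (d u - ((⌈d u⌉₊ - 1 : ℕ) : ℝ)) • toR u := by
        rw [hy, toR_sub, hx, toR_sum]
        simp only [sub_smul]
        rw [Finset.sum_sub_distrib]
        congr 1
        rw [← Finset.sum_coe_sort δ]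
        refine Finset.sum_congr rfl fun u _ => ?_
        rw [toR_smul]
        simp [hm]
      have hyB : y ∈ FB δ := by
        refine ⟨fun u => d u - ((⌈d u⌉₊ - 1 : ℕ) : ℝ), fun u hu => ?_, hyc⟩
        have := hceil u hu
        constructor <;> linarith
      refine ⟨⟨⟨y, hyB⟩, m⟩, ?_⟩
      apply Subtype.ext
      change y + ∑ u : δ, (m u : ℤ) • (u : Fin n → ℤ) = x
      rw [hy]
      abel)

theorem decomp_apply {δ : Finset (Fin n → ℤ)} (hδ : Indep δ) (c : FB δ → (Fin n → ℤ) → ℝ)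
    (hc : ∀ b : FB δ, (∀ u ∈ δ, 0 < c b u ∧ c b u ≤ 1) ∧ toR b.1 = ∑ u ∈ δ, c b u • toR u)
    (q : FB δ × (δ → ℕ)) (f : (Fin n → ℤ) → ℝ) :
    ∑ a ∈ δ, crd δ (toR (decomp hδ c hc q).1) a * f a =
      ∑ a ∈ δ, c q.1 a * f a + ∑ a : δ, (q.2 a : ℝ) * f a := by
  have h1 : ∀ a ∈ δ, crd δ (toR (decomp hδ c hc q).1) a =
      c q.1 a + if h : a ∈ δ then (q.2 ⟨a, h⟩ : ℝ) else 0 := by
    intro a ha
    exact crd_eq hδ (toR_comb δ _ _ (hc q.1).2 q.2) ha
  rw [Finset.sum_congr rfl (fun a ha => by rw [h1 a ha])]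
  simp only [add_mul]
  rw [Finset.sum_add_distrib]
  congr 1
  rw [← Finset.sum_coe_sort δ]
  refine Finset.sum_congr rfl fun u _ => ?_
  simp

/-- the sum -/
theorem cone_hasSum {δ : Finset (Fin n → ℤ)} (hδ : Indep δ) [Fintype (FB δ)]
    (c : FB δ → (Fin n → ℤ) → ℝ)
    (hc : ∀ b : FB δ, (∀ u ∈ δ, 0 < c b u ∧ c b u ≤ 1) ∧ toR b.1 = ∑ u ∈ δ, c b u • toR u)
    (f : (Fin n → ℤ) → ℝ) (hf : ∀ a ∈ δ, 0 < f a) (ε : ℝ) (hε : 0 < ε) :
    HasSum (fun x : opn δ => Real.exp (-(ε * ∑ a ∈ δ, crd δ (toR x.1) a * f a)))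
      ((∑ b : FB δ, Real.exp (-(ε * ∑ a ∈ δ, c b a * f a))) *
        ∏ a : δ, (1 - Real.exp (-(ε * f a)))⁻¹) := by
  have hiff := (decomp hδ c hc).hasSum_iff
    (f := fun x : opn δ => Real.exp (-(ε * ∑ a ∈ δ, crd δ (toR x.1) a * f a)))
    (a := (∑ b : FB δ, Real.exp (-(ε * ∑ a ∈ δ, c b a * f a))) *
        ∏ a : δ, (1 - Real.exp (-(ε * f a)))⁻¹)
  rw [← hiff]
  have hg : ∀ a : δ, HasSum (fun m : ℕ => Real.exp (-(ε * f a)) ^ m)
      (1 - Real.exp (-(ε * f a)))⁻¹ := by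
    intro a
    apply hasSum_geometric_of_lt_one (Real.exp_pos _).le
    rw [Real.exp_lt_one_iff]
    have := mul_pos hε (hf a a.2)
    linarith
  have h1 := hasSum_pi_nat (fun (a : δ) m => Real.exp (-(ε * f a)) ^ m) _
    (fun a m => pow_nonneg (Real.exp_pos _).le _) hg
  have h2 := hasSum_fintype (fun b : FB δ => Real.exp (-(ε * ∑ a ∈ δ, c b a * f a)))
  have h3 : Summable fun x : FB δ × (δ → ℕ) => Real.exp (-(ε * ∑ a ∈ δ, c x.1 a * f a)) *
      ∏ a : δ, Real.exp (-(ε * f a)) ^ (x.2 a) :=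
    h2.summable.mul_of_nonneg h1.summable (fun b => (Real.exp_pos _).le)
      (fun m => Finset.prod_nonneg fun a _ => pow_nonneg (Real.exp_pos _).le _)
  have h4 := h2.mul h1 h3
  have h5 : ((fun x : opn δ => Real.exp (-(ε * ∑ a ∈ δ, crd δ (toR x.1) a * f a))) ∘
      (decomp hδ c hc)) = fun x : FB δ × (δ → ℕ) =>
      Real.exp (-(ε * ∑ a ∈ δ, c x.1 a * f a)) * ∏ a : δ, Real.exp (-(ε * f a)) ^ (x.2 a) := by
    funext q
    have h6 := decomp_apply hδ c hc q f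
    simp only [Function.comp]
    rw [h6, mul_add, neg_add, Real.exp_add]
    congr 1
    rw [Finset.mul_sum, ← Finset.sum_neg_distrib, Real.exp_sum]
    refine Finset.prod_congr rfl fun a _ => ?_
    rw [← Real.exp_nat_mul]
    congr 1
    ring
  rw [h5]
  exact h4

theorem lim_one (t : ℝ) (ht : 0 < t) :
    Tendsto (fun ε : ℝ => ε * (1 - Real.exp (-(ε * t)))⁻¹) (𝓝[>] 0) (𝓝 (1 / t)) := by
  -- derivative of `1 - exp (-(ε t))` at zero
  have h1 : HasDerivAt (fun ε : ℝ => 1 - Real.exp (-(ε * t))) t 0 := by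
    have h2 : HasDerivAt (fun ε : ℝ => -(ε * t)) (-t) 0 := by
      simpa using (hasDerivAt_id (0 : ℝ)).mul_const (-t)
    have h3 := (h2.exp).const_sub 1
    simpa using h3
  have h4 := h1.tendsto_slope
  have h5 : Tendsto (slope (fun ε : ℝ => 1 - Real.exp (-(ε * t))) 0) (𝓝[>] 0) (𝓝 t) :=
    h4.mono_left (nhdsWithin_mono _ (fun x hx => (ne_of_gt hx)))
  have h6 := h5.inv₀ ht.ne'
  rw [one_div]
  refine h6.congr (fun ε => ?_)
  rw [slope_def_field]
  simp only [zero_mul, neg_zero, Real.exp_zero, sub_self, sub_zero]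
  rw [inv_div, div_eq_mul_inv]

theorem coneExp : ConeExp := by
  classical
  intro n δ hδ f hf
  obtain ⟨c, hc⟩ := exists_coef δ
  have hcard := card_FB hδ
  have hfin : Finite (FB δ) := by
    apply Nat.finite_of_card_ne_zero
    rw [hcard]
    exact idxPos n _
  let _ : Fintype (FB δ) := Fintype.ofFinite _
  have hs := cone_hasSum hδ c hc f hf
  refine ⟨fun ε hε => (hs ε hε).summable, ?_⟩
  have h1 : Tendsto (fun ε : ℝ => (∑ b : FB δ, Real.exp (-(ε * ∑ a ∈ δ, c b a * f a))) *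
      ∏ a : δ, (ε * (1 - Real.exp (-(ε * f a)))⁻¹)) (𝓝[>] 0)
      (𝓝 ((∑ _b : FB δ, (1 : ℝ)) * ∏ a : δ, (1 / f a))) := by
    refine Tendsto.mul (tendsto_finsetSum _ fun b _ => ?_)
      (tendsto_finsetProd _ fun a _ => lim_one (f a) (hf a a.2))
    have h2 : Continuous (fun ε : ℝ => Real.exp (-(ε * ∑ a ∈ δ, c b a * f a))) := by fun_prop
    have h3 := (h2.tendsto 0).mono_left (nhdsWithin_le_nhds (s := Set.Ioi (0 : ℝ)))
    simpa using h3
  have h4 : ((idx (δ : Set (Fin n → ℤ)) : ℝ) / ∏ a ∈ δ, f a) =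
      (∑ _b : FB δ, (1 : ℝ)) * ∏ a : δ, (1 / f a) := by
    rw [← hcard, Nat.card_eq_fintype_card, Finset.sum_const, nsmul_eq_mul, mul_one,
      Finset.card_univ, div_eq_mul_inv, ← Finset.prod_inv_distrib, ← Finset.prod_coe_sort δ]
    congr 1
    refine Finset.prod_congr rfl fun a _ => ?_
    rw [one_div]
  rw [h4]
  refine h1.congr' ?_
  filter_upwards [self_mem_nhdsWithin] with ε hε
  rw [(hs ε hε).tsum_eq, Finset.prod_mul_distrib, Finset.prod_const, Finset.card_univ,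
    Fintype.card_coe]
  ring

end Mono.CI.P1
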